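import Mathlib
import Pool.Agent.Q63.GB.Defs

/-!
# Hodge structures of elementary abelian 2-coverings of projective spaces: definitions
-/

set_option autoImplicit false

namespace Pool.Agent.Q63.DQ

open Multiplicative TensorProduct Pool.Agent.Q63.GB

variable {s : ℕ} {V : Type} [AddCommGroup V] [Module ℚ V]

/-- The `a`-part of the representation `V`: the vectors on which `h` acts as multiplication by
`ψ (∑ i, a i * h i)`, where `ψ` is the character of `ℤ/2` with the values `1` and `-1`. -/
def part (ψ : AddChar (ZMod 2) ℚ) (ρ : Representation ℚ (Multiplicative (Fin s → ZMod 2)) V)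
    (a : Fin s → ZMod 2) : Submodule ℚ V where
  carrier := {v | ∀ h : Fin s → ZMod 2, ρ (ofAdd h) v = ψ (∑ i, a i * h i) • v}
  zero_mem' := fun h => by rw [map_zero, smul_zero]
  add_mem' := fun {x y} hx hy h => by rw [map_add, hx h, hy h, smul_add]
  smul_mem' := fun c x hx h => by rw [map_smul, hx h, smul_comm]

/-- `F` is a Hodge substructure of `V`, `H p q` being the subspace `H^{p,q}` of the complexification of
`V`, `p + q = n`: the complexification of `F` is the sum of its intersections with the `H^{p,q}`. -/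
def IsHodgeSub (n : ℕ) (H : ℕ → ℕ → Submodule ℂ (ℂ ⊗[ℚ] V)) (F : Submodule ℚ V) : Prop :=
  F.baseChange ℂ = ⨆ (p : ℕ) (q : ℕ) (_ : p + q = n), F.baseChange ℂ ⊓ H p q

/-- The Hodge coniveau of `F` is at least `c` (its level is at most `n - 2 c`): the complexification of `F`
contains no nonzero vector of type `(p, q)` with `p < c` or `q < c`. -/
def HodgeConiveau (n : ℕ) (H : ℕ → ℕ → Submodule ℂ (ℂ ⊗[ℚ] V)) (F : Submodule ℚ V) (c : ℕ) : Prop :=
  ∀ p q, p + q = n → min p q < c → F.baseChange ℂ ⊓ H p q = ⊥

/-- `Y → P^n` is a smooth covering over `ℂ` with the group `G`, a quotient of `(ℤ/2)^s`, branched over `s`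
hyperplanes in general position; `Λ` is the group of the characters of `G`. `V = H^n(Y, ℚ)` with the action `ρ` of
the group, the Hodge decomposition `H` of its complexification, and the coniveau filtration `N`. -/
structure CoverHodge (n : ℕ) (Λ : AddSubgroup (Fin s → ZMod 2)) (ψ : AddChar (ZMod 2) ℚ)
    (ρ : Representation ℚ (Multiplicative (Fin s → ZMod 2)) V)
    (H : ℕ → ℕ → Submodule ℂ (ℂ ⊗[ℚ] V)) (N : ℕ → Submodule ℚ V) : Prop where
  /-- only characters of `G` occur -/
  characters : ∀ a, part ψ ρ a ≠ ⊥ → a ∈ Λ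
  /-- double coverings are branched in even degree -/
  even : ∀ a ∈ Λ, ∑ i, a i = 0
  /-- the Hodge decomposition -/
  decomp : IsHodgeSub n H (⊤ : Submodule ℚ V)
  /-- the group acts by automorphisms of Hodge structures -/
  stable : ∀ p q h, ∀ x ∈ H p q, (ρ (ofAdd h)).baseChange ℂ x ∈ H p q
  /-- The Hodge numbers of the `a`-part, `a ≠ 0`, are the products `C(g, p) C(g, q)`, `g = weight a / 2 - 1`. -/
  hodge : ∀ a ∈ Λ, a ≠ 0 → ∀ p q, p + q = n → p ≤ weight a / 2 - 1 → q ≤ weight a / 2 - 1 →
    (part ψ ρ a).baseChange ℂ ⊓ H p q ≠ ⊥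
  coniveau_zero : N 0 = ⊤
  /-- The double covering `Y / ker a` of `P^n` is branched over `w = weight a` hyperplanes. If `w ≤ n + 1` it is a toric
  variety. If `w ≥ n + 2` it is a quotient of a smooth complete intersection of `w - n - 1` quadrics in `P^(w-1)`, which
  has no nonzero homologically trivial cycles (with rational coefficients) of dimension `i < n + 1 - w / 2`; so its
  cohomology of degree `n` has coniveau at least `n + 1 - w / 2` (Bloch, Srinivas). For `w ≤ n + 2` the `a`-part is zero,
  or spanned by the class of an algebraic cycle. -/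
  known : ∀ a ∈ Λ, ∀ c, 2 * c ≤ n → 2 * c + weight a ≤ 2 * n + 2 → part ψ ρ a ≤ N c

/-- The hyperplanes are very general: if a Hodge substructure `F` of `V` is not orthogonal to the `a`-part, where
`weight a > n + 2`, then it contains the `a`-part. (The `a`-parts with `weight a > n + 2` are irreducible and pairwise not
isomorphic, and the other ones consist of Hodge classes.) -/
def VeryGeneral (n : ℕ) (Λ : AddSubgroup (Fin s → ZMod 2)) (ψ : AddChar (ZMod 2) ℚ)
    (ρ : Representation ℚ (Multiplicative (Fin s → ZMod 2)) V)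
    (H : ℕ → ℕ → Submodule ℂ (ℂ ⊗[ℚ] V)) : Prop :=
  ∀ F, IsHodgeSub n H F → ∀ a ∈ Λ, n + 2 < weight a →
    (∃ v ∈ F, ∑ h : Fin s → ZMod 2, ψ (∑ i, a i * h i) • ρ (ofAdd h) v ≠ 0) → part ψ ρ a ≤ F

end Pool.Agent.Q63.DQ
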