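import Mathlib
import Pool.Agent.Q63.DQ.Defs
import Pool.Agent.Q63.GB.Main

set_option autoImplicit false

namespace Pool.Agent.Q63.DQ

open Multiplicative TensorProduct Pool.Agent.Q63.GB

variable {s : ℕ} {V : Type} [AddCommGroup V] [Module ℚ V] {ψ : AddChar (ZMod 2) ℚ}
  {ρ : Representation ℚ (Multiplicative (Fin s → ZMod 2)) V}

lemma psi_neg (x : ZMod 2) : ψ (-x) = ψ x := by
  have : -x = x := by revert x; decide
  rw [this]

lemma psi_sum (T : Finset (Fin s)) (f : Fin s → ZMod 2) : ψ (∑ i ∈ T, f i) = ∏ i ∈ T, ψ (f i) := by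
  classical
  induction T using Finset.induction_on with
  | empty => simp
  | insert i T hi ih =>
    rw [Finset.sum_insert hi, Finset.prod_insert hi, AddChar.map_add_eq_mul, ih]

lemma sum_char (hψ : ψ.IsPrimitive) (g : Fin s → ZMod 2) :
    ∑ a : Fin s → ZMod 2, ψ (∑ i, a i * g i) = if g = 0 then (2 : ℚ) ^ s else 0 := by
  simp_rw [psi_sum]
  rw [← Fintype.piFinset_univ,
    ← Finset.prod_univ_sum (fun _ : Fin s => (Finset.univ : Finset (ZMod 2)))
      (fun i x => ψ (x * g i))]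
  simp_rw [AddChar.sum_mulShift _ hψ]
  by_cases hg : g = 0
  · subst hg
    simp [ZMod.card]
  · rw [if_neg hg]
    obtain ⟨i, hi⟩ := Function.ne_iff.1 hg
    refine Finset.prod_eq_zero (Finset.mem_univ i) ?_
    rw [if_neg (by simpa using hi)]
    simp

/-- the component of `v` in the `a`-part, multiplied by `2 ^ s` -/
noncomputable def cmp (ψ : AddChar (ZMod 2) ℚ) (ρ : Representation ℚ (Multiplicative (Fin s → ZMod 2)) V)
    (v : V) (a : Fin s → ZMod 2) : V :=
  ∑ h : Fin s → ZMod 2, ψ (∑ i, a i * h i) • ρ (ofAdd h) v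

lemma sum_cmp (hψ : ψ.IsPrimitive) (v : V) : ∑ a, cmp ψ ρ v a = (2 : ℚ) ^ s • v := by
  unfold cmp
  rw [Finset.sum_comm]
  simp_rw [← Finset.sum_smul, sum_char hψ, ite_smul, zero_smul]
  rw [Finset.sum_ite_eq' Finset.univ (0 : Fin s → ZMod 2), if_pos (Finset.mem_univ _)]
  have : ofAdd (0 : Fin s → ZMod 2) = 1 := rfl
  rw [this, map_one]
  rfl

lemma cmp_mem (v : V) (a : Fin s → ZMod 2) : cmp ψ ρ v a ∈ part ψ ρ a := by
  intro h
  unfold cmp
  rw [map_sum, Finset.smul_sum]
  refine Fintype.sum_equiv (Equiv.addLeft h) _ _ fun g => ?_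
  have h1 : ρ (ofAdd h) (ρ (ofAdd g) v) = ρ (ofAdd (h + g)) v := by
    rw [← Module.End.mul_apply, ← map_mul]
    rfl
  rw [map_smul, h1, Equiv.coe_addLeft, smul_smul, ← AddChar.map_add_eq_mul]
  congr 2
  have : ∑ i, a i * (h + g) i = ∑ i, a i * h i + ∑ i, a i * g i := by
    rw [← Finset.sum_add_distrib]
    exact Finset.sum_congr rfl fun i _ => by rw [Pi.add_apply, mul_add]
  rw [this, ← add_assoc, CharTwo.add_self_eq_zero, zero_add]

lemma mem_of_cmp (hψ : ψ.IsPrimitive) {M : Submodule ℚ V} {v : V} (h : ∀ a, cmp ψ ρ v a ∈ M) : v ∈ M := by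
  have h1 : ((2 : ℚ) ^ s)⁻¹ • ((2 : ℚ) ^ s • v) = v := by
    rw [smul_smul, inv_mul_cancel₀ (by positivity), one_smul]
  rw [← h1, ← sum_cmp (ρ := ρ) hψ v]
  exact M.smul_mem _ (M.sum_mem fun a _ => h a)

/-- a rational subspace with zero complexification is zero -/
lemma eq_bot_of_baseChange {F : Submodule ℚ V} (h : F.baseChange ℂ = ⊥) : F = ⊥ := by
  rw [Submodule.eq_bot_iff]
  intro x hx
  have h1 : (1 : ℂ) ⊗ₜ[ℚ] x ∈ F.baseChange ℂ := Submodule.tmul_mem_baseChange_of_mem 1 hx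
  rw [h, Submodule.mem_bot] at h1
  have h2 : Function.Injective (TensorProduct.mk ℚ ℂ V 1) :=
    Module.FaithfullyFlat.tensorProduct_mk_injective V
  apply h2
  rw [map_zero]
  exact h1

variable {n : ℕ} {H : ℕ → ℕ → Submodule ℂ (ℂ ⊗[ℚ] V)}

lemma eq_bot_of_coniveau {F : Submodule ℚ V} (hF : IsHodgeSub n H F) {c : ℕ}
    (hc : HodgeConiveau n H F c) (h : n < 2 * c) : F = ⊥ := by
  apply eq_bot_of_baseChange
  rw [hF, eq_bot_iff]
  refine iSup_le fun p => iSup_le fun q => iSup_le fun hpq => ?_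
  rw [hc p q hpq (by omega)]

/-- the general principle -/
theorem le_coniveau (hψ : ψ.IsPrimitive) {Λ : AddSubgroup (Fin s → ZMod 2)} {N : ℕ → Submodule ℚ V}
    (hY : CoverHodge n Λ ψ ρ H N) {c : ℕ} {F : Submodule ℚ V} (hF : IsHodgeSub n H F)
    (hc : HodgeConiveau n H F c)
    (hpart : ∀ a ∈ Λ, n + 2 < weight a → (∃ v ∈ F, cmp ψ ρ v a ≠ 0) → part ψ ρ a ≤ F) : F ≤ N c := by
  rcases Nat.eq_zero_or_pos c with hc0 | hc0
  · rw [hc0, hY.coniveau_zero]
    exact le_top
  rcases lt_or_ge n (2 * c) with h2 | h2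
  · rw [eq_bot_of_coniveau hF hc h2]
    exact bot_le
  intro v hv
  refine mem_of_cmp (ρ := ρ) hψ fun a => ?_
  by_cases h0 : cmp ψ ρ v a = 0
  · rw [h0]
    exact (N c).zero_mem
  have hne : part ψ ρ a ≠ ⊥ := fun h => h0 (by
    have := cmp_mem (ψ := ψ) (ρ := ρ) v a
    rw [h] at this
    exact this)
  have ha := hY.characters a hne
  refine hY.known a ha c h2 ?_ (cmp_mem v a)
  by_contra hcon
  push Not at hcon
  have hw : n + 2 < weight a := by omega
  have hle := hpart a ha hw ⟨v, hv, h0⟩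
  obtain ⟨g, hg⟩ := weight_even (hY.even a ha)
  have ha0 : a ≠ 0 := by
    rintro rfl
    have : weight (0 : Fin s → ZMod 2) = 0 := by simp [weight]
    omega
  have key : ∀ p q, p + q = n → p ≤ weight a / 2 - 1 → q ≤ weight a / 2 - 1 → ¬ min p q < c := by
    intro p q hpq h3 h4 h5
    apply hY.hodge a ha ha0 p q hpq h3 h4
    rw [eq_bot_iff, ← hc p q hpq h5]
    exact inf_le_inf_right _ (Submodule.baseChange_mono ℂ hle)
  have hw2 : weight a / 2 = g := by omega
  rcases le_or_gt (weight a) (2 * n + 2) with hle2 | hgt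
  · exact key (g - 1) (n + 1 - g) (by omega) (by omega) (by omega) (by omega)
  · exact key n 0 (by omega) (by omega) (by omega) (by omega)

/-- the image of an element of the group ring is a Hodge substructure -/
lemma isHodgeSub_range {Λ : AddSubgroup (Fin s → ZMod 2)} {N : ℕ → Submodule ℚ V}
    (hY : CoverHodge n Λ ψ ρ H N) (x : (Fin s → ZMod 2) → ℚ) :
    IsHodgeSub n H (LinearMap.range (∑ h, x h • ρ (ofAdd h))) := by
  set X : V →ₗ[ℚ] V := ∑ h, x h • ρ (ofAdd h) with hX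
  refine le_antisymm ?_ (iSup_le fun p => iSup_le fun q => iSup_le fun _ => inf_le_left)
  have hmem : ∀ y : ℂ ⊗[ℚ] V, X.baseChange ℂ y ∈ (LinearMap.range X).baseChange ℂ := by
    intro y
    induction y using TensorProduct.induction_on with
    | zero => rw [map_zero]; exact Submodule.zero_mem _
    | tmul z v =>
      rw [LinearMap.baseChange_tmul]
      exact Submodule.tmul_mem_baseChange_of_mem z ⟨v, rfl⟩
    | add y z hy hz => rw [map_add]; exact Submodule.add_mem _ hy hz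
  have hstable : ∀ p q, ∀ y ∈ H p q, X.baseChange ℂ y ∈ H p q := by
    intro p q y hy
    have h1 : X.baseChange ℂ y = ∑ h, (x h : ℂ) • (ρ (ofAdd h)).baseChange ℂ y := by
      rw [hX]
      clear hy hmem
      induction y using TensorProduct.induction_on with
      | zero => simp
      | tmul z v =>
        simp only [LinearMap.baseChange_tmul, LinearMap.sum_apply, LinearMap.smul_apply,
          TensorProduct.tmul_sum, TensorProduct.tmul_smul]
        refine Finset.sum_congr rfl fun h _ => ?_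
        rw [TensorProduct.smul_tmul', TensorProduct.smul_tmul', Rat.smul_def, smul_eq_mul]
      | add y z hy hz =>
        rw [map_add, hy, hz, ← Finset.sum_add_distrib]
        exact Finset.sum_congr rfl fun h _ => by rw [map_add, smul_add]
    rw [h1]
    exact Submodule.sum_mem _ fun h _ => Submodule.smul_mem _ _ (hY.stable p q h y hy)
  have htop : ∀ y : ℂ ⊗[ℚ] V, X.baseChange ℂ y ∈
      ⨆ (p : ℕ) (q : ℕ) (_ : p + q = n), (LinearMap.range X).baseChange ℂ ⊓ H p q := by
    intro y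
    have hy : y ∈ (⊤ : Submodule ℚ V).baseChange ℂ := by
      rw [Submodule.baseChange_top]
      trivial
    rw [hY.decomp] at hy
    have hle : (⨆ (p : ℕ) (q : ℕ) (_ : p + q = n), (⊤ : Submodule ℚ V).baseChange ℂ ⊓ H p q) ≤
        Submodule.comap (X.baseChange ℂ)
          (⨆ (p : ℕ) (q : ℕ) (_ : p + q = n), (LinearMap.range X).baseChange ℂ ⊓ H p q) := by
      refine iSup_le fun p => iSup_le fun q => iSup_le fun hpq => ?_
      rintro y ⟨-, hy⟩
      exact Submodule.mem_iSup_of_mem p (Submodule.mem_iSup_of_mem q (Submodule.mem_iSup_of_mem hpq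
        ⟨hmem y, hstable p q y hy⟩))
    exact hle hy
  generalize hR : (⨆ (p : ℕ) (q : ℕ) (_ : p + q = n), (LinearMap.range X).baseChange ℂ ⊓ H p q) = R at htop ⊢
  rw [Submodule.baseChange_eq_span, Submodule.span_le]
  rintro _ ⟨w, ⟨v, rfl⟩, rfl⟩
  have h3 := htop ((1 : ℂ) ⊗ₜ[ℚ] v)
  rw [LinearMap.baseChange_tmul] at h3
  exact h3

/-- the image of an element of the group ring contains each part which it meets -/
lemma part_le_range (x : (Fin s → ZMod 2) → ℚ) (a : Fin s → ZMod 2)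
    (h : ∃ v ∈ LinearMap.range (∑ h, x h • ρ (ofAdd h)), cmp ψ ρ v a ≠ 0) :
    part ψ ρ a ≤ LinearMap.range (∑ h, x h • ρ (ofAdd h)) := by
  obtain ⟨_, ⟨v, rfl⟩, hv⟩ := h
  have hact : ∀ u ∈ part ψ ρ a, (∑ h, x h • ρ (ofAdd h)) u = (∑ h, x h * ψ (∑ i, a i * h i)) • u := by
    intro u hu
    rw [LinearMap.sum_apply, Finset.sum_smul]
    refine Finset.sum_congr rfl fun h _ => ?_
    rw [LinearMap.smul_apply, hu h, smul_smul]
  have hcomm : cmp ψ ρ ((∑ h, x h • ρ (ofAdd h)) v) a =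
      (∑ h, x h • ρ (ofAdd h)) (cmp ψ ρ v a) := by
    unfold cmp
    rw [map_sum]
    refine Finset.sum_congr rfl fun g _ => ?_
    rw [map_smul]
    congr 1
    rw [LinearMap.sum_apply, LinearMap.sum_apply, map_sum]
    refine Finset.sum_congr rfl fun h _ => ?_
    rw [LinearMap.smul_apply, LinearMap.smul_apply, map_smul]
    congr 1
    have h5 : ρ (ofAdd g) * ρ (ofAdd h) = ρ (ofAdd h) * ρ (ofAdd g) := by
      rw [← map_mul, mul_comm, map_mul]
    exact congrArg (fun T : V →ₗ[ℚ] V => T v) h5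
  rw [hcomm, hact _ (cmp_mem v a)] at hv
  have hl : ∑ h, x h * ψ (∑ i, a i * h i) ≠ 0 := by
    intro h0
    rw [h0, zero_smul] at hv
    exact hv rfl
  intro u hu
  refine ⟨(∑ h, x h * ψ (∑ i, a i * h i))⁻¹ • u, ?_⟩
  rw [map_smul, hact u hu, smul_smul, inv_mul_cancel₀ hl, one_smul]

end Pool.Agent.Q63.DQ
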